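import Pool.Agent.H92.CM.Idx

/-!
# [H92 CM Cen] THEOREM MAP: the commensurators of the subgroups which meet the kernel of a homomorphism to `ℤ` in a finite group
-/

set_option autoImplicit false

namespace Pool.Agent.H92.CM

open Pool.Agent.H98.FJ
open Subgroup.Commensurable (commensurator)
open scoped Pointwise

section

variable {C : (G : Type) → [Group G] → Prop} {E : Type} [Group E]

/-- centralisers of elements with nontrivial image -/
theorem cen_mem (hC : Inherits C) (q : E →* Multiplicative ℤ) (hk : C q.ker) {w : E} (hw : q w ≠ 1) :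
    C (Subgroup.centralizer {w} : Subgroup E) := by
  have hwc : w ∈ (Subgroup.centralizer {w} : Subgroup E) := Subgroup.mem_centralizer_singleton_iff.2 rfl
  refine Pool.Agent.H54.GC.central_step hC (q.comp (Subgroup.centralizer {w}).subtype) (z := ⟨w, hwc⟩)
    (fun g => Subtype.ext (Subgroup.mem_centralizer_singleton_iff.1 g.2)) hw ?_
  refine hC.of_injective (H := q.ker)
    { toFun := fun x => ⟨x.1.1, x.2⟩
      map_one' := rfl
      map_mul' := fun _ _ => rfl } ?_ hk
  intro a b hab
  exact Subtype.ext (Subtype.ext (congrArg (fun y : q.ker => (y : E)) hab))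

/-- the elements which centralise a power of `z` -/
def VC (z : E) : Subgroup E where
  carrier := {g | ∃ m : ℕ, m ≠ 0 ∧ Commute g (z ^ m)}
  one_mem' := ⟨1, one_ne_zero, Commute.one_left _⟩
  mul_mem' := by
    rintro g h ⟨m, hm, h1⟩ ⟨a, ha, h2⟩
    refine ⟨m * a, mul_ne_zero hm ha, ?_⟩
    refine Commute.mul_left ?_ ?_
    · rw [pow_mul]
      exact h1.pow_right a
    · rw [mul_comm, pow_mul]
      exact h2.pow_right m
  inv_mem' := by
    rintro g ⟨m, hm, h1⟩
    exact ⟨m, hm, h1.inv_left⟩

theorem vc_mem (hC : Inherits C) (q : E →* Multiplicative ℤ) (hk : C q.ker) {z : E} (hz : q z ≠ 1) : C (VC z) := by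
  have hq : ∀ m : ℕ, m ≠ 0 → q (z ^ m) ≠ 1 := by
    intro m hm h1
    rw [map_pow] at h1
    apply hz
    have h2 : m • Multiplicative.toAdd (q z) = 0 := congrArg Multiplicative.toAdd h1
    rcases smul_eq_zero.1 h2 with h3 | h3
    · exact absurd h3 hm
    · exact Multiplicative.toAdd.injective h3
  refine hC.union (G := VC z) (ι := ℕ)
    (fun n => (Subgroup.centralizer {z ^ n.factorial} : Subgroup E).subgroupOf (VC z)) ?_ ?_ ?_
  · intro n m hnm x hx
    rw [Subgroup.mem_subgroupOf, Subgroup.mem_centralizer_singleton_iff] at hx ⊢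
    obtain ⟨k, hk⟩ := Nat.factorial_dvd_factorial hnm
    have h1 : Commute (x : E) (z ^ n.factorial) := hx
    rw [hk, pow_mul]
    exact h1.pow_right k
  · rintro ⟨g, m, hm, h1⟩
    refine ⟨m, ?_⟩
    rw [Subgroup.mem_subgroupOf, Subgroup.mem_centralizer_singleton_iff]
    obtain ⟨k, hk⟩ := Nat.dvd_factorial (Nat.pos_of_ne_zero hm) le_rfl
    show Commute g (z ^ m.factorial)
    rw [hk, pow_mul]
    exact h1.pow_right k
  · intro n
    have h1 := cen_mem hC q hk (hq _ (Nat.factorial_ne_zero n))
    refine hC.of_injective (H := (Subgroup.centralizer {z ^ n.factorial} : Subgroup E))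
      { toFun := fun x => ⟨x.1.1, x.2⟩
        map_one' := rfl
        map_mul' := fun _ _ => rfl } ?_ h1
    intro a b hab
    exact Subtype.ext (Subtype.ext (congrArg (fun w : (Subgroup.centralizer {z ^ n.factorial} : Subgroup E) => (w : E)) hab))

/-- the commensurator of the cyclic group generated by an element with nontrivial image -/
theorem comm_zpowers (q : E →* Multiplicative ℤ) {z : E} (hz : q z ≠ 1) : commensurator (Subgroup.zpowers z) ≤ VC z := by
  intro g hg
  rw [Subgroup.Commensurable.commensurator_mem_iff] at hg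
  -- a power of `z` is conjugate to a power of `z`
  have hgz : g * z * g⁻¹ ∈ (ConjAct.toConjAct g • Subgroup.zpowers z : Subgroup E) := by
    rw [Subgroup.mem_smul_pointwise_iff_exists]
    exact ⟨z, Subgroup.mem_zpowers z, by rw [ConjAct.toConjAct_smul]⟩
  obtain ⟨m, hm, -, h1⟩ := Subgroup.exists_pow_mem_of_relIndex_ne_zero hg.2 hgz
  obtain ⟨n, hn⟩ := Subgroup.mem_zpowers_iff.1 h1.1
  rw [conj_pow] at hn
  have h2 : q z ^ n = q z ^ m := by
    have h3 := congrArg q hn
    rw [map_zpow, map_mul, map_mul, map_pow, map_inv, mul_right_comm, mul_inv_cancel, one_mul] at h3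
    exact h3
  have h4 : n * Multiplicative.toAdd (q z) = m * Multiplicative.toAdd (q z) := by
    have h5 := congrArg Multiplicative.toAdd h2
    rw [toAdd_zpow, toAdd_pow] at h5
    simpa using h5
  have hz0 : Multiplicative.toAdd (q z) ≠ 0 := fun h0 => hz (Multiplicative.toAdd.injective h0)
  have h6 : n = m := mul_right_cancel₀ hz0 h4
  refine ⟨m, hm.ne', ?_⟩
  rw [h6, zpow_natCast] at hn
  show g * z ^ m = z ^ m * g
  rw [← mul_inv_eq_iff_eq_mul]
  exact hn.symm

/-- the commensurators of the infinite subgroups with finite intersection with the kernel -/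
theorem comm_fin (hC : Inherits C) (q : E →* Multiplicative ℤ) (hk : C q.ker) (B : Subgroup E) (hB : (B : Set E).Infinite)
    (hf : ((B ⊓ q.ker : Subgroup E) : Set E).Finite) : C (commensurator B) := by
  obtain ⟨z, hzB, hz⟩ : ∃ z ∈ B, q z ≠ 1 := by
    by_contra hno
    push Not at hno
    apply hB
    have e : B ⊓ q.ker = B := inf_eq_left.2 fun b hb => hno b hb
    rwa [e] at hf
  have h1 : (Subgroup.zpowers z).relIndex B ≠ 0 := by
    refine rel_ker q (Subgroup.zpowers_le.2 hzB) ?_ ?_
    · have hfin : Finite (B ⊓ q.ker : Subgroup E) := hf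
      intro h0
      have h2 := Subgroup.relIndex_dvd_card (Subgroup.zpowers z ⊓ q.ker) (B ⊓ q.ker)
      rw [h0, zero_dvd_iff] at h2
      exact Nat.card_pos.ne' h2
    · exact int_rel (Subgroup.mem_map_of_mem q (Subgroup.mem_zpowers z)) hz
  have h2 : Subgroup.Commensurable B (Subgroup.zpowers z) := ⟨by
    rw [Subgroup.relIndex_eq_one.2 (Subgroup.zpowers_le.2 hzB)]
    exact one_ne_zero, h1⟩
  have e : commensurator B = commensurator (Subgroup.zpowers z) := Subgroup.Commensurable.eq h2
  rw [e]
  exact hC.of_injective (Subgroup.inclusion (comm_zpowers q hz)) (Subgroup.inclusion_injective _) (vc_mem hC q hk hz)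

end

end Pool.Agent.H92.CM
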