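import Pool.Agent.H92.CM.Main
import Pool.Agent.H98.MO.Loc

/-!
# [H92 CM Fin] THEOREM MAP: final forms

`loc_main`: the homomorphism `f` is defined on a finitely generated subgroup. `proper_main`: the case in which the vertex stabilisers meet
the kernel of `f` in groups with at most `N` elements, for instance discrete subgroups of `Aut(X) × Q`, `X` locally finite.
-/

set_option autoImplicit false

namespace Pool.Agent.H92.CM

open Pool.Agent.H98.FJ Pool.Agent.H76.GT Pool.Agent.H37.MG
open Subgroup.Commensurable (commensurator)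
open scoped Pointwise

section

variable {C : (G : Type) → [Group G] → Prop}

/-- **Theorem MAP**, local form -/
theorem loc_main (hC : Inherits C) (hT : Transfer C) (hE : Extension C) (G : Type) [Group G]
    (h : ∀ K : Subgroup G, K.FG → ∃ (Q : Type) (_ : Group Q) (f : K →* Q) (V : Type) (_ : MulAction K V) (X : SimpleGraph V)
      (n k N m : ℕ), C Q ∧ Median X ∧ (∀ (g : K) (a b : V), X.Adj a b → X.Adj (g • a) (g • b)) ∧ (∀ c, ¬ IsCube X (n + 1) c) ∧
      (∀ v : V, C (MulAction.stabilizer K v)) ∧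
      (∀ B : Subgroup K, FM X k B → B ≤ f.ker → (B : Set K).Finite → (B : Set K).encard ≤ N) ∧
      (∀ B : Subgroup K, FM X k B → B ≤ f.ker → (B : Set K).Infinite → C (commensurator B)) ∧
      ∀ B : ℕ → Subgroup K, (∀ i, FM X k (B i)) → (∀ i, B i ≤ f.ker) → (∀ i, B i ≤ B (i + 1)) → (B 0 : Set K).Infinite →
        ∃ i < m, (B i).relIndex (B (i + 1)) ≠ 0) : C G := by
  refine Pool.Agent.H98.MO.of_fg hC G fun K hK => ?_
  obtain ⟨Q, _, f, V, _, X, n, k, N, m, hQ, hX, hadj, hn, hv, hN, hcom, hm⟩ := h K hK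
  have h1 : RA C K (fun B => ∀ b ∈ B, f b = 1) := ⟨V, inferInstance, X, n, k, N, m, hX, hadj, hn, hv, hN, hcom, hm⟩
  exact map_main hC hT hE f hQ fun K' _ => ra_inj hC K'.subtype Subtype.val_injective (fun y : K => f y = 1) h1

/-- finite kernel -/
theorem mem_of_fin (hC : Inherits C) (hE : Extension C) {G Q : Type} [Group G] [Group Q] (f : G →* Q) (hQ : C Q)
    (hk : Finite f.ker) : C G := by
  refine Pool.Agent.H63.RK.ext_cyc hC hE f.rangeRestrict f.rangeRestrict_surjective (hC.sub Q f.range hQ) ?_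
  intro v
  obtain ⟨x, hx⟩ := f.rangeRestrict_surjective v
  have hxm : x ∈ (Subgroup.zpowers v).comap f.rangeRestrict := Subgroup.mem_comap.2 (by rw [hx]; exact Subgroup.mem_zpowers v)
  have hfi : (Subgroup.zpowers (⟨x, hxm⟩ : ((Subgroup.zpowers v).comap f.rangeRestrict : Subgroup G))).FiniteIndex := by
    refine ⟨?_⟩
    have h1 : (Subgroup.zpowers x).relIndex ((Subgroup.zpowers v).comap f.rangeRestrict) ≠ 0 := by
      have hft : Fintype f.ker := Fintype.ofFinite _
      classical
      refine rel_cover (Finset.univ.image fun y : f.ker => (y : G)) fun b hb => ?_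
      obtain ⟨j, hj⟩ := Subgroup.mem_zpowers_iff.1 (Subgroup.mem_comap.1 hb)
      have h2 : b * (x ^ j)⁻¹ ∈ f.ker := by
        have h3 : f.rangeRestrict (b * (x ^ j)⁻¹) = 1 := by
          rw [map_mul, map_inv, map_zpow, hx, ← hj, mul_inv_cancel]
        exact congrArg (Subtype.val : f.range → Q) h3
      exact ⟨_, Finset.mem_image_of_mem _ (Finset.mem_univ (⟨_, h2⟩ : f.ker)), x ^ j, Subgroup.zpow_mem _ (Subgroup.mem_zpowers x) j, by
        show b = b * (x ^ j)⁻¹ * x ^ j
        rw [inv_mul_cancel_right]⟩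
    have e : (Subgroup.zpowers x).subgroupOf ((Subgroup.zpowers v).comap f.rangeRestrict) =
        Subgroup.zpowers (⟨x, hxm⟩ : ((Subgroup.zpowers v).comap f.rangeRestrict : Subgroup G)) := by
      ext z
      rw [Subgroup.mem_subgroupOf, Subgroup.mem_zpowers_iff, Subgroup.mem_zpowers_iff]
      constructor
      · rintro ⟨j, hj⟩
        exact ⟨j, Subtype.ext hj⟩
      · rintro ⟨j, rfl⟩
        exact ⟨j, rfl⟩
    rw [← e]
    exact h1
  refine hC.index _ _ hfi ?_
  have h3 : C (zpowersHom ((Subgroup.zpowers v).comap f.rangeRestrict : Subgroup G) ⟨x, hxm⟩).range := by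
    by_cases hfin : IsOfFinOrder (⟨x, hxm⟩ : ((Subgroup.zpowers v).comap f.rangeRestrict : Subgroup G))
    · have : Finite (Subgroup.zpowers (⟨x, hxm⟩ : ((Subgroup.zpowers v).comap f.rangeRestrict : Subgroup G))) := finite_zpowers.2 hfin
      exact hC.fin _ this
    · refine hC.iso _ _ (MonoidHom.ofInjective (f := zpowersHom _ _) ?_) hC.int
      intro a b hab
      have h3 := injective_zpow_iff_not_isOfFinOrder.mpr hfin
      exact Multiplicative.toAdd.injective (h3 hab)
  exact h3

/-- **Corollary**: the vertex stabilisers meet the kernel in groups of bounded order -/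
theorem proper_main (hC : Inherits C) (hT : Transfer C) (hE : Extension C) (G : Type) [Group G]
    (h : ∀ K : Subgroup G, K.FG → ∃ (Q : Type) (_ : Group Q) (f : K →* Q) (V : Type) (_ : MulAction K V) (X : SimpleGraph V)
      (n N : ℕ), C Q ∧ Median X ∧ (∀ (g : K) (a b : V), X.Adj a b → X.Adj (g • a) (g • b)) ∧ (∀ c, ¬ IsCube X (n + 1) c) ∧
      ∀ v : V, {g : K | g • v = v ∧ f g = 1}.encard ≤ N) : C G := by
  refine loc_main hC hT hE G fun K hK => ?_
  obtain ⟨Q, _, f, V, _, X, n, N, hQ, hX, hadj, hn, hN⟩ := h K hK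
  have hB : ∀ B : Subgroup K, FM X 0 B → B ≤ f.ker → (B : Set K).encard ≤ N := by
    rintro B ⟨v, w, -, h1⟩ h2
    refine le_trans (Set.encard_le_encard ?_) (hN v)
    exact fun b hb => ⟨(h1 b hb).1, h2 hb⟩
  have hf : ∀ B : Subgroup K, FM X 0 B → B ≤ f.ker → (B : Set K).Finite := by
    intro B h1 h2
    exact Set.finite_of_encard_le_coe (hB B h1 h2)
  refine ⟨Q, inferInstance, f, V, inferInstance, X, n, 0, N, 0, hQ, hX, hadj, hn, ?_, fun B h1 h2 _ => hB B h1 h2,
    fun B h1 h2 h3 => absurd (hf B h1 h2) h3, fun B h1 h2 _ h3 => absurd (hf _ (h1 0) (h2 0)) h3⟩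
  intro v
  refine mem_of_fin hC hE (f.comp (MulAction.stabilizer K v).subtype) hQ ?_
  have h1 : {g : K | g • v = v ∧ f g = 1}.Finite := Set.finite_of_encard_le_coe (hN v)
  have h2 : Finite {g : K | g • v = v ∧ f g = 1} := h1
  refine Finite.of_injective (β := {g : K | g • v = v ∧ f g = 1}) (fun x => ⟨x.1.1, x.1.2, x.2⟩) ?_
  intro a b hab
  exact Subtype.ext (Subtype.ext (congrArg (fun y : {g : K | g • v = v ∧ f g = 1} => (y : K)) hab))

end

end Pool.Agent.H92.CM
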