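import Pool.Agent.H92.CZ.Com
import Pool.Agent.H54.GC.VC
import Pool.Agent.H54.GC.Cst

/-!
# [H92 CM Idx] THEOREM MAP: indices and commensurators in a group with a homomorphism to `ℤ`
-/

set_option autoImplicit false

namespace Pool.Agent.H92.CM

open Pool.Agent.H98.FJ
open Subgroup.Commensurable (commensurator)
open scoped Pointwise

section

variable {G H : Type} [Group G] [Group H]

theorem rel_cover {A B : Subgroup G} (s : Finset G) (h : ∀ b ∈ B, ∃ t ∈ s, ∃ a ∈ A, b = t * a) : A.relIndex B ≠ 0 := by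
  choose! t ht a ha e using h
  have h1 : Finite (B ⧸ A.subgroupOf B) := by
    refine Finite.of_injective (β := s) (fun x => ⟨t (x.out : B), ht _ x.out.2⟩) ?_
    intro x y hxy
    have h2 : t (x.out : B) = t (y.out : B) := congrArg Subtype.val hxy
    rw [← QuotientGroup.out_eq' x, ← QuotientGroup.out_eq' y]
    refine QuotientGroup.eq.2 ?_
    rw [Subgroup.mem_subgroupOf]
    have e1 := e _ x.out.2
    have e2 := e _ y.out.2
    have e3 : ((x.out⁻¹ * y.out : B) : G) = (a (x.out : B))⁻¹ * a (y.out : B) := by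
      calc ((x.out⁻¹ * y.out : B) : G) = (t (x.out : B) * a (x.out : B))⁻¹ * (t (y.out : B) * a (y.out : B)) := by
            rw [← e1, ← e2]
            rfl
        _ = (a (x.out : B))⁻¹ * a (y.out : B) := by
            rw [h2]
            group
    rw [e3]
    exact A.mul_mem (A.inv_mem (ha _ x.out.2)) (ha _ y.out.2)
  exact Subgroup.index_ne_zero_of_finite

theorem cover_rel {A B : Subgroup G} (h : A.relIndex B ≠ 0) : ∃ s : Finset G, ∀ b ∈ B, ∃ t ∈ s, ∃ a ∈ A, b = t * a := by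
  classical
  have h1 : Finite (B ⧸ A.subgroupOf B) := Subgroup.index_ne_zero_iff_finite.1 h
  have h2 : Fintype (B ⧸ A.subgroupOf B) := Fintype.ofFinite _
  refine ⟨Finset.univ.image fun x : B ⧸ A.subgroupOf B => ((x.out : B) : G), fun b hb => ?_⟩
  refine ⟨_, Finset.mem_image_of_mem _ (Finset.mem_univ (QuotientGroup.mk (⟨b, hb⟩ : B))), ?_⟩
  have h3 : (QuotientGroup.mk (QuotientGroup.mk (⟨b, hb⟩ : B) : B ⧸ A.subgroupOf B).out : B ⧸ A.subgroupOf B) =
    QuotientGroup.mk (⟨b, hb⟩ : B) := QuotientGroup.out_eq' _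
  have h4 := QuotientGroup.eq.1 h3
  rw [Subgroup.mem_subgroupOf] at h4
  refine ⟨_, h4, ?_⟩
  show b = _ * (_⁻¹ * b)
  rw [mul_inv_cancel_left]

theorem rel_ker (q : G →* H) {A B : Subgroup G} (hAB : A ≤ B) (h1 : (A ⊓ q.ker).relIndex (B ⊓ q.ker) ≠ 0)
    (h2 : (A.map q).relIndex (B.map q) ≠ 0) : A.relIndex B ≠ 0 := by
  have h3 : (((A.map q).comap q)).relIndex B ≠ 0 := by
    rw [Subgroup.relIndex_comap]
    exact h2
  have h4 : A.relIndex ((A.map q).comap q ⊓ B) ≠ 0 := by
    obtain ⟨s, hs⟩ := cover_rel h1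
    refine rel_cover s fun b hb => ?_
    obtain ⟨⟨a, ha, hab⟩, hbB⟩ := hb
    obtain ⟨t, ht, d, hd, e⟩ := hs (b * a⁻¹) ⟨B.mul_mem hbB (B.inv_mem (hAB ha)), by
      show q (b * a⁻¹) = 1
      rw [map_mul, map_inv, hab, mul_inv_cancel]⟩
    exact ⟨t, ht, d * a, A.mul_mem hd.1 ha, by rw [← mul_assoc, ← e, inv_mul_cancel_right]⟩
  have h5 : ((A.map q).comap q ⊓ B).relIndex B ≠ 0 := by
    rw [Subgroup.inf_relIndex_right]
    exact h3
  exact Subgroup.relIndex_ne_zero_trans h4 h5

theorem int_rel {A B : Subgroup (Multiplicative ℤ)} {a : Multiplicative ℤ} (ha : a ∈ A) (h : a ≠ 1) : A.relIndex B ≠ 0 := by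
  have h0 : Multiplicative.toAdd a ≠ 0 := fun h0 => h (by
    have : a = Multiplicative.ofAdd 0 := by rw [← h0]; rfl
    rw [this]
    rfl)
  have h1 := Pool.Agent.H54.GC.index_zpowers_zpow (Multiplicative.ofAdd (1 : ℤ)) h0
  have e1 : (Multiplicative.ofAdd (1 : ℤ)) ^ (Multiplicative.toAdd a) = a := by
    apply Multiplicative.toAdd.injective
    simp
  have e2 : Subgroup.zpowers (Multiplicative.ofAdd (1 : ℤ)) = ⊤ := by
    rw [eq_top_iff]
    intro x _
    refine Subgroup.mem_zpowers_iff.2 ⟨Multiplicative.toAdd x, ?_⟩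
    apply Multiplicative.toAdd.injective
    simp
  rw [e1, e2] at h1
  intro h2
  apply h1
  have h3 : A.relIndex (⊤ : Subgroup (Multiplicative ℤ)) = 0 := Subgroup.relIndex_eq_zero_of_le_right le_top h2
  exact Subgroup.relIndex_eq_zero_of_le_left (Subgroup.zpowers_le.2 ha) h3

/-- the commensurator of `B` is contained in that of `B ∩ N`, `N` normal -/
theorem comm_inf (N : Subgroup G) [hN : N.Normal] (B : Subgroup G) : commensurator B ≤ commensurator (B ⊓ N) := by
  intro g hg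
  rw [Subgroup.Commensurable.commensurator_mem_iff] at hg ⊢
  have e : ConjAct.toConjAct g • (B ⊓ N) = (ConjAct.toConjAct g • B) ⊓ N := by
    rw [Subgroup.smul_inf]
    congr 1
    exact Subgroup.Normal.conjAct hN _
  rw [e]
  exact ⟨Subgroup.relIndex_inter_ne_zero hg.1 N, Subgroup.relIndex_inter_ne_zero hg.2 N⟩

end

end Pool.Agent.H92.CM
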