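import Pool.Agent.H92.CM.Cen
import Pool.Agent.H63.RK.Exc

/-!
# [H92 CM Main] THEOREM MAP: the relative form of THEOREM CCB
-/

set_option autoImplicit false

namespace Pool.Agent.H92.CM

open Pool.Agent.H98.FJ Pool.Agent.H76.GT Pool.Agent.H37.MG
open Subgroup.Commensurable (commensurator)
open scoped Pointwise

section

variable {C : (G : Type) → [Group G] → Prop}

/-- the conditions on a finitely generated group, for the subgroups with property `P` -/
def RA (C : (G : Type) → [Group G] → Prop) (K : Type) [Group K] (P : Subgroup K → Prop) : Prop :=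
  ∃ (V : Type) (_ : MulAction K V) (X : SimpleGraph V) (n k N m : ℕ), Median X ∧
    (∀ (g : K) (a b : V), X.Adj a b → X.Adj (g • a) (g • b)) ∧ (∀ f, ¬ IsCube X (n + 1) f) ∧
    (∀ v : V, C (MulAction.stabilizer K v)) ∧
    (∀ B : Subgroup K, FM X k B → P B → (B : Set K).Finite → (B : Set K).encard ≤ N) ∧
    (∀ B : Subgroup K, FM X k B → P B → (B : Set K).Infinite → C (commensurator B)) ∧
    ∀ B : ℕ → Subgroup K, (∀ i, FM X k (B i)) → (∀ i, P (B i)) → (∀ i, B i ≤ B (i + 1)) → (B 0 : Set K).Infinite →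
      ∃ i < m, (B i).relIndex (B (i + 1)) ≠ 0

/-- chains -/
theorem chain_step {E : Type} [Group E] (q : E →* Multiplicative ℤ) (P : Subgroup E → Prop) (hP : ∀ A B, A ≤ B → P B → P A) (m : ℕ)
    (h : ∀ B : ℕ → Subgroup E, (∀ i, P (B i)) → (∀ i, B i ≤ q.ker) → (∀ i, B i ≤ B (i + 1)) → (B 0 : Set E).Infinite →
      ∃ i < m, (B i).relIndex (B (i + 1)) ≠ 0)
    (B : ℕ → Subgroup E) (hB : ∀ i, P (B i)) (hle : ∀ i, B i ≤ B (i + 1)) (h0 : (B 0 : Set E).Infinite) :
    ∃ i < 2 * m + 1, (B i).relIndex (B (i + 1)) ≠ 0 := by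
  have hle' : ∀ i j, i ≤ j → B i ≤ B j := fun i j => by
    intro hij
    exact monotone_nat_of_le_succ hle hij
  -- a run of intersections
  have hrun : ∀ j, ((B j ⊓ q.ker : Subgroup E) : Set E).Infinite →
      ∃ i, j ≤ i ∧ i < j + m ∧ (B i ⊓ q.ker).relIndex (B (i + 1) ⊓ q.ker) ≠ 0 := by
    intro j hj
    obtain ⟨i, hi, h1⟩ := h (fun i => B (j + i) ⊓ q.ker) (fun i => hP _ _ inf_le_left (hB _)) (fun i => inf_le_right)
      (fun i => inf_le_inf_right _ (hle (j + i))) hj
    exact ⟨j + i, Nat.le_add_right _ _, Nat.add_lt_add_left hi _, h1⟩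
  -- the steps which are not good
  have hstep : ∀ i, (B i ⊓ q.ker).relIndex (B (i + 1) ⊓ q.ker) ≠ 0 → (∃ b ∈ B i, q b ≠ 1) →
      (B i).relIndex (B (i + 1)) ≠ 0 := by
    rintro i h1 ⟨b, hb, hq⟩
    exact rel_ker q (hle i) h1 (int_rel (Subgroup.mem_map_of_mem q hb) hq)
  have hker : ∀ i, (B i ⊓ q.ker).relIndex (B (i + 1) ⊓ q.ker) ≠ 0 → B (i + 1) ≤ q.ker →
      (B i).relIndex (B (i + 1)) ≠ 0 := by
    intro i h1 h2
    rwa [inf_eq_left.2 h2, inf_eq_left.2 ((hle i).trans h2)] at h1
  by_cases hf : ((B 0 ⊓ q.ker : Subgroup E) : Set E).Finite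
  · -- the first intersection is finite
    have hq0 : ∃ b ∈ B 0, q b ≠ 1 := by
      by_contra hno
      push Not at hno
      apply h0
      have e : B 0 ⊓ q.ker = B 0 := inf_eq_left.2 fun b hb => hno b hb
      rwa [e] at hf
    have hq : ∀ i, ∃ b ∈ B i, q b ≠ 1 := by
      intro i
      obtain ⟨b, hb, h1⟩ := hq0
      exact ⟨b, hle' 0 i (Nat.zero_le i) hb, h1⟩
    by_cases hf1 : ((B 1 ⊓ q.ker : Subgroup E) : Set E).Finite
    · refine ⟨0, Nat.succ_pos _, hstep 0 ?_ (hq 0)⟩
      have hfin : Finite (B 1 ⊓ q.ker : Subgroup E) := hf1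
      intro h2
      have h3 := Subgroup.relIndex_dvd_card (B 0 ⊓ q.ker) (B 1 ⊓ q.ker)
      have h2' : (B 0 ⊓ q.ker).relIndex (B 1 ⊓ q.ker) = 0 := h2
      rw [h2', zero_dvd_iff] at h3
      exact Nat.card_pos.ne' h3
    · obtain ⟨i, -, hi, h1⟩ := hrun 1 hf1
      exact ⟨i, by omega, hstep i h1 (hq i)⟩
  · obtain ⟨i, -, hi, h1⟩ := hrun 0 hf
    have hfm : ((B m ⊓ q.ker : Subgroup E) : Set E).Infinite := by
      refine Set.Infinite.mono ?_ hf
      exact fun x hx => ⟨hle' 0 m (Nat.zero_le m) hx.1, hx.2⟩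
    obtain ⟨j, hj1, hj2, h2⟩ := hrun m hfm
    by_cases hk : B (i + 1) ≤ q.ker
    · exact ⟨i, by omega, hker i h1 hk⟩
    · refine ⟨j, by omega, hstep j h2 ?_⟩
      have h3 : ∃ b ∈ B (i + 1), q b ≠ 1 := by
        by_contra hno
        push Not at hno
        exact hk fun b hb => hno b hb
      obtain ⟨b, hb, h4⟩ := h3
      exact ⟨b, hle' (i + 1) j (by omega) hb, h4⟩

/-- the case of a homomorphism to `ℤ` -/
theorem int_case (hC : Inherits C) (hT : Transfer C) {G E : Type} [Group G] [Group E] (P : G → Prop)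
    (h : ∀ (K : Type) [Group K] (φ : K →* G), Function.Injective φ → Group.FG K → RA C K (fun B => ∀ b ∈ B, P (φ b)))
    (ψ : E →* G) (hψ : Function.Injective ψ) (q : E →* Multiplicative ℤ) (hq : ∀ x : E, q x = 1 ↔ P (ψ x)) : C E := by
  have hker : C q.ker := by
    refine Pool.Agent.H92.CZ.comm_main hC hT q.ker fun K hK => ?_
    obtain ⟨V, _, X, n, k, N, m, hX, hadj, hn, hv, hN, hcom, hm⟩ := h K (ψ.comp (q.ker.subtype.comp K.subtype))
      (hψ.comp (Subtype.val_injective.comp Subtype.val_injective)) ((Group.fg_iff_subgroup_fg _).2 hK)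
    have hP : ∀ x : K, P (ψ ((x : q.ker) : E)) := fun x => (hq _).1 x.1.2
    exact ⟨V, inferInstance, X, n, k, N, m, hX, hadj, hn, hv, fun B h1 h2 => hN B h1 (fun b _ => hP b) h2,
      fun B h1 h2 => hcom B h1 (fun b _ => hP b) h2, fun B h1 h2 h3 => hm B h1 (fun i b _ => hP b) h2 h3⟩
  refine Pool.Agent.H92.CZ.comm_main hC hT E fun K hK => ?_
  obtain ⟨V, _, X, n, k, N, m, hX, hadj, hn, hv, hN, hcom, hm⟩ := h K (ψ.comp K.subtype)
    (hψ.comp Subtype.val_injective) ((Group.fg_iff_subgroup_fg _).2 hK)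
  set r : K →* Multiplicative ℤ := q.comp K.subtype with hr
  have hrP : ∀ x : K, r x = 1 ↔ P (ψ (x : E)) := fun x => hq (x : E)
  have hrk : C r.ker := by
    refine hC.of_injective (H := q.ker)
      { toFun := fun x => ⟨x.1.1, x.2⟩
        map_one' := rfl
        map_mul' := fun _ _ => rfl } ?_ hker
    intro a b hab
    exact Subtype.ext (Subtype.ext (congrArg (fun y : q.ker => (y : E)) hab))
  have hFM : ∀ A B : Subgroup K, A ≤ B → FM X k B → FM X k A := by
    rintro A B hAB ⟨v, w, h1, h2⟩
    exact ⟨v, w, h1, fun b hb => h2 b (hAB hb)⟩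
  refine ⟨V, inferInstance, X, n, k, N, 2 * m + 1, hX, hadj, hn, hv, ?_, ?_, ?_⟩
  · intro B h1 h2
    refine hN B h1 (fun b hb => (hrP b).1 ?_) h2
    have hfin : Finite B := h2
    have h3 : IsOfFinOrder (⟨b, hb⟩ : B) := isOfFinOrder_of_finite _
    obtain ⟨j, hj, h4⟩ := isOfFinOrder_iff_pow_eq_one.1 h3
    have h5 : b ^ j = 1 := congrArg Subtype.val h4
    have h6 : r b ^ j = 1 := by rw [← map_pow, h5, map_one]
    have h7 : j • Multiplicative.toAdd (r b) = 0 := congrArg Multiplicative.toAdd h6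
    rcases smul_eq_zero.1 h7 with h8 | h8
    · exact absurd h8 hj.ne'
    · exact Multiplicative.toAdd.injective h8
  · intro B h1 h2
    by_cases hf : ((B ⊓ r.ker : Subgroup K) : Set K).Finite
    · exact comm_fin hC r hrk B h2 hf
    · have h3 := hcom (B ⊓ r.ker) (hFM _ _ inf_le_left h1) (fun b hb => (hrP b).1 hb.2) hf
      exact hC.of_injective (Subgroup.inclusion (comm_inf r.ker B)) (Subgroup.inclusion_injective _) h3
  · intro B h1 h2 h3
    refine chain_step r (FM X k) hFM m ?_ B h1 h2 h3
    intro B' h4 h5 h6 h7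
    exact hm B' h4 (fun i b hb => (hrP b).1 (h5 i hb)) h6 h7

/-- transport of the conditions along an injective homomorphism -/
theorem ra_inj (hC : Inherits C) {K K' : Type} [Group K] [Group K'] (e : K →* K') (hi : Function.Injective e) (P : K' → Prop)
    (h : RA C K' (fun B => ∀ b ∈ B, P b)) : RA C K (fun B => ∀ b ∈ B, P (e b)) := by
  obtain ⟨V, _, X, n, k, N, m, hX, hadj, hn, hv, hN, hcom, hm⟩ := h
  let act : MulAction K V := MulAction.compHom V e
  have hsm : ∀ (g : K) (v : V), g • v = e g • v := fun g v => rfl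
  have hFM : ∀ B : Subgroup K, FM X k B → FM X k (B.map e) := by
    rintro B ⟨v, w, h1, h2⟩
    refine ⟨v, w, h1, ?_⟩
    rintro _ ⟨b, hb, rfl⟩
    exact h2 b hb
  have hP : ∀ B : Subgroup K, (∀ b ∈ B, P (e b)) → ∀ b ∈ B.map e, P b := by
    rintro B h1 _ ⟨b, hb, rfl⟩
    exact h1 b hb
  refine ⟨V, act, X, n, k, N, m, hX, fun g a b hab => hadj (e g) a b hab, hn, ?_, ?_, ?_, ?_⟩
  · intro v
    refine hC.of_injective (H := MulAction.stabilizer K' v)
      { toFun := fun x => ⟨e x.1, x.2⟩
        map_one' := Subtype.ext (map_one e)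
        map_mul' := fun x y => Subtype.ext (map_mul e x.1 y.1) } ?_ (hv v)
    intro a b hab
    exact Subtype.ext (hi (congrArg (fun y : MulAction.stabilizer K' v => (y : K')) hab))
  · intro B h1 h2 h3
    have h4 := hN (B.map e) (hFM B h1) (hP B h2) (by
      rw [Subgroup.coe_map]
      exact h3.image _)
    rw [Subgroup.coe_map, hi.encard_image] at h4
    exact h4
  · intro B h1 h2 h3
    have h4 := hcom (B.map e) (hFM B h1) (hP B h2) (by
      rw [Subgroup.coe_map]
      exact h3.image hi.injOn)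
    have key : ∀ x ∈ commensurator B, e x ∈ commensurator (B.map e) := by
      intro x hx
      rw [Subgroup.Commensurable.commensurator_mem_iff] at hx ⊢
      have e1 : ConjAct.toConjAct (e x) • B.map e = (ConjAct.toConjAct x • B).map e := by
        ext y
        rw [Subgroup.mem_smul_pointwise_iff_exists, Subgroup.mem_map]
        constructor
        · rintro ⟨_, ⟨b, hb, rfl⟩, rfl⟩
          refine ⟨x * b * x⁻¹, ?_, ?_⟩
          · rw [Subgroup.mem_smul_pointwise_iff_exists]
            exact ⟨b, hb, by rw [ConjAct.toConjAct_smul]⟩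
          · rw [ConjAct.toConjAct_smul]
            simp
        · rintro ⟨_, hb, rfl⟩
          rw [Subgroup.mem_smul_pointwise_iff_exists] at hb
          obtain ⟨b, hb, rfl⟩ := hb
          refine ⟨e b, Subgroup.mem_map_of_mem _ hb, ?_⟩
          rw [ConjAct.toConjAct_smul, ConjAct.toConjAct_smul]
          simp
      rw [e1]
      constructor
      · rw [Subgroup.relIndex_map_map_of_injective _ _ hi]
        exact hx.1
      · rw [Subgroup.relIndex_map_map_of_injective _ _ hi]
        exact hx.2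
    refine hC.of_injective (H := commensurator (B.map e))
      { toFun := fun x => ⟨e x.1, key x.1 x.2⟩
        map_one' := Subtype.ext (map_one e)
        map_mul' := fun x y => Subtype.ext (map_mul e x.1 y.1) } ?_ h4
    intro a b hab
    exact Subtype.ext (hi (congrArg (fun y : commensurator (B.map e) => (y : K')) hab))
  · intro B h1 h2 h3 h4
    obtain ⟨i, hi', h5⟩ := hm (fun i => (B i).map e) (fun i => hFM _ (h1 i)) (fun i => hP _ (h2 i))
      (fun i => Subgroup.map_mono (h3 i)) (by
        show (((B 0).map e : Subgroup K') : Set K').Infinite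
        rw [Subgroup.coe_map]
        exact h4.image hi.injOn)
    refine ⟨i, hi', ?_⟩
    have h6 : ((B i).map e).relIndex ((B (i + 1)).map e) ≠ 0 := h5
    rwa [Subgroup.relIndex_map_map_of_injective _ _ hi] at h6

/-- **Theorem MAP**: the relative form -/
theorem map_main (hC : Inherits C) (hT : Transfer C) (hE : Extension C) {G Q : Type} [Group G] [Group Q] (f : G →* Q)
    (hQ : C Q) (h : ∀ K : Subgroup G, K.FG → RA C K (fun B => ∀ b ∈ B, f (b : G) = 1)) : C G := by
  have h' : ∀ (K : Type) [Group K] (φ : K →* G), Function.Injective φ → Group.FG K →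
      RA C K (fun B => ∀ b ∈ B, f (φ b) = 1) := by
    intro K _ φ hφ hK
    have hr : φ.range.FG := by
      rw [← Group.fg_iff_subgroup_fg]
      exact Group.fg_range φ
    exact ra_inj hC (MonoidHom.ofInjective hφ).toMonoidHom (MonoidHom.ofInjective hφ).injective (fun y : φ.range => f (y : G) = 1) (h φ.range hr)
  refine Pool.Agent.H63.RK.ext_cyc hC hE f.rangeRestrict f.rangeRestrict_surjective (hC.sub Q f.range hQ) ?_
  intro v
  have hval : ∀ x : G, f.rangeRestrict x = 1 ↔ f x = 1 := by
    intro x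
    constructor
    · intro hx
      exact congrArg (Subtype.val : f.range → Q) hx
    · intro hx
      exact Subtype.ext hx
  by_cases hfin : IsOfFinOrder v
  · have hz : Finite (Subgroup.zpowers v) := Set.Finite.to_subtype (finite_zpowers.mpr hfin)
    let g : ((Subgroup.zpowers v).comap f.rangeRestrict) →* Subgroup.zpowers v :=
      f.rangeRestrict.subgroupComap (Subgroup.zpowers v)
    have hrf : Finite g.range := Subtype.finite
    refine hC.index _ g.ker (Subgroup.finiteIndex_ker _) ?_
    have hk : ∀ x : g.ker, f ((x.1 : G)) = 1 := by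
      rintro ⟨x, hx⟩
      have h2 : f.rangeRestrict (x : G) = 1 := congrArg (Subtype.val : Subgroup.zpowers v → f.range) hx
      exact (hval _).1 h2
    refine int_case hC hT (fun y : G => f y = 1) h' ((Subgroup.subtype _).comp g.ker.subtype)
      (Subtype.val_injective.comp Subtype.val_injective) 1 fun x => ?_
    exact ⟨fun _ => hk x, fun _ => rfl⟩
  · have hinj : Function.Injective (zpowersHom f.range v) := by
      intro a b hab
      have h3 := injective_zpow_iff_not_isOfFinOrder.mpr hfin
      exact Multiplicative.toAdd.injective (h3 hab)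
    let r : Multiplicative ℤ ≃* (zpowersHom f.range v).range := MonoidHom.ofInjective hinj
    have e : Subgroup.zpowers v = (zpowersHom f.range v).range := rfl
    rw [e]
    let g : ((zpowersHom f.range v).range.comap f.rangeRestrict) →* (zpowersHom f.range v).range :=
      f.rangeRestrict.subgroupComap _
    refine int_case hC hT (fun y : G => f y = 1) h' (Subgroup.subtype _) Subtype.val_injective
      (r.symm.toMonoidHom.comp g) fun x => ?_
    constructor
    · intro hx
      have h1 : r.symm (g x) = 1 := hx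
      have h2 : g x = 1 := by
        have h3 := congrArg r h1
        rwa [MulEquiv.apply_symm_apply, map_one] at h3
      have h4 : f.rangeRestrict (x : G) = 1 := congrArg (Subtype.val : (zpowersHom f.range v).range → f.range) h2
      exact (hval _).1 h4
    · intro hx
      have h2 : g x = 1 := Subtype.ext ((hval _).2 hx)
      show r.symm (g x) = 1
      rw [h2, map_one]

end

end Pool.Agent.H92.CM
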